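import Pool.Agent.H306R2.SM.Asm5
import Pool.Agent.H223.EM.MDefs

set_option autoImplicit false

/-! Task MB3 of the project EM: norm of `B`. -/

namespace Pool.Agent.H184R2.EM_MB3

open Finset Filter Topology MeasureTheory Complex
open Pool.Agent.H306R2 Pool.Agent.H306R2.SM Pool.Agent.H223.EM

noncomputable section

lemma psl_nonneg (p a : ℕ) (hp : 2 ≤ p) : 0 ≤ psl p a := by
  unfold psl
  have hp' : (2 : ℝ) ≤ p := by exact_mod_cast hp
  have h1 : 1 / (p : ℝ) ≤ 1 := by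
    rw [div_le_one (by linarith)]; linarith
  have h2 : 0 ≤ 1 - 1 / (p : ℝ) := by linarith
  positivity

lemma four_pow_aux (a : ℕ) :
    ((a : ℝ) + 1 + 1) * ((a : ℝ) + 1 + 2) / 2 + ((a : ℝ) + 1 + 1) / 4 + 1 / 2 ≤ 4 ^ (a + 1) := by
  induction a with
  | zero => norm_num
  | succ a ih =>
    push_cast
    have ha : (0 : ℝ) ≤ a := Nat.cast_nonneg a
    rw [pow_succ]
    nlinarith

lemma psl_le (p a : ℕ) (hp : 2 ≤ p) (ha : 1 ≤ a) : psl p a ≤ ((p : ℝ) ^ a) ^ 2 := by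
  have hp' : (2 : ℝ) ≤ p := by exact_mod_cast hp
  obtain ⟨b, rfl⟩ : ∃ b, a = b + 1 := ⟨a - 1, by omega⟩
  set q : ℝ := 1 / (p : ℝ) with hq
  have hq0 : 0 < q := by positivity
  have hq1 : q ≤ 1 / 2 := by
    rw [hq]; exact one_div_le_one_div_of_le (by norm_num) hp'
  have h1 : psl p (b + 1) ≤
      ((b : ℝ) + 1 + 1) * ((b : ℝ) + 1 + 2) / 2 + ((b : ℝ) + 1 + 1) / 4 + 1 / 2 := by
    unfold psl
    rw [← hq]
    push_cast
    have hb : (0 : ℝ) ≤ b := Nat.cast_nonneg b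
    have e1 : (1 - q) ^ 2 ≤ 1 := by nlinarith
    have e2 : q * (1 - q) ≤ 1 / 4 := by nlinarith [sq_nonneg (q - 1 / 2)]
    have e3 : (1 - q) ^ 2 * (((b : ℝ) + 1 + 1) * ((b : ℝ) + 1 + 2) / 2) ≤
        1 * (((b : ℝ) + 1 + 1) * ((b : ℝ) + 1 + 2) / 2) :=
      mul_le_mul_of_nonneg_right e1 (by positivity)
    have e4 : ((b : ℝ) + 1 + 1) * (q * (1 - q)) ≤ ((b : ℝ) + 1 + 1) * (1 / 4) :=
      mul_le_mul_of_nonneg_left e2 (by positivity)
    nlinarith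
  refine h1.trans ((four_pow_aux b).trans ?_)
  calc (4 : ℝ) ^ (b + 1) = ((2 : ℝ) ^ (b + 1)) ^ 2 := by
        rw [← pow_mul, mul_comm, pow_mul]; norm_num
    _ ≤ ((p : ℝ) ^ (b + 1)) ^ 2 := by
        apply pow_le_pow_left₀ (by positivity)
        exact pow_le_pow_left₀ (by norm_num) hp' _

lemma Del_nonneg (p a : ℕ) (hp : 2 ≤ p) : 0 ≤ Del p a := by
  unfold Del
  have hp' : (2 : ℝ) ≤ p := by exact_mod_cast hp
  have h1 : 1 / (p : ℝ) ≤ 1 := by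
    rw [div_le_one (by linarith)]; linarith
  have h2 : 0 ≤ 1 - 1 / (p : ℝ) := by linarith
  positivity

lemma Del_le (p a : ℕ) (hp : 2 ≤ p) : Del p a ≤ (p : ℝ) ^ a := by
  have hp' : (2 : ℝ) ≤ p := by exact_mod_cast hp
  have h0 : 0 < 1 / (p : ℝ) := by positivity
  have h1 : Del p a ≤ 1 + a := by
    unfold Del
    have ha : (0 : ℝ) ≤ a := Nat.cast_nonneg a
    have : (a : ℝ) * (1 - 1 / (p : ℝ)) / (1 + 1 / (p : ℝ)) ≤ a := by
      rw [div_le_iff₀ (by positivity)]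
      nlinarith
    linarith
  refine h1.trans ?_
  calc (1 + a : ℝ) = 1 + (a : ℝ) * 1 := by ring
    _ ≤ (1 + 1) ^ a := one_add_mul_le_pow (by norm_num) a
    _ = (2 : ℝ) ^ a := by norm_num
    _ ≤ (p : ℝ) ^ a := pow_le_pow_left₀ (by norm_num) hp' _

lemma ps_nonneg (h : ℕ) : 0 ≤ ps h := by
  unfold ps
  rw [Finsupp.prod]
  apply prod_nonneg
  intro p hp
  exact psl_nonneg p _ (Nat.prime_of_mem_primeFactors (by simpa using hp)).two_le

lemma ps_le (h : ℕ) (hh : 1 ≤ h) : ps h ≤ (h : ℝ) ^ 2 := by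
  have h1 : (h : ℝ) = h.factorization.prod fun p a => (p : ℝ) ^ a := by
    conv_lhs => rw [← Nat.prod_factorization_pow_eq_self (show h ≠ 0 by omega)]
    rw [Finsupp.prod, Finsupp.prod]
    push_cast
    rfl
  unfold ps
  rw [h1, Finsupp.prod, Finsupp.prod, ← prod_pow]
  apply Finset.prod_le_prod
  · intro p hp
    exact psl_nonneg p _ (Nat.prime_of_mem_primeFactors (by simpa using hp)).two_le
  · intro p hp
    have hp' : p.Prime := Nat.prime_of_mem_primeFactors (by simpa using hp)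
    apply psl_le p _ hp'.two_le
    have : h.factorization p ≠ 0 := by
      rw [Finsupp.mem_support_iff] at hp
      exact hp
    omega

lemma De_nonneg (h : ℕ) : 0 ≤ De h := by
  unfold De
  rw [Finsupp.prod]
  apply prod_nonneg
  intro p hp
  exact Del_nonneg p _ (Nat.prime_of_mem_primeFactors (by simpa using hp)).two_le

lemma De_le (h : ℕ) (hh : 1 ≤ h) : De h ≤ (h : ℝ) := by
  have h1 : (h : ℝ) = h.factorization.prod fun p a => (p : ℝ) ^ a := by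
    conv_lhs => rw [← Nat.prod_factorization_pow_eq_self (show h ≠ 0 by omega)]
    rw [Finsupp.prod, Finsupp.prod]
    push_cast
    rfl
  unfold De
  rw [h1, Finsupp.prod, Finsupp.prod]
  apply Finset.prod_le_prod
  · intro p hp
    exact Del_nonneg p _ (Nat.prime_of_mem_primeFactors (by simpa using hp)).two_le
  · intro p hp
    exact Del_le p _ (Nat.prime_of_mem_primeFactors (by simpa using hp)).two_le

lemma f_bound : ∃ C : ℝ, 0 < C ∧ ∀ ε x y : ℝ, 0 ≤ x → x ≤ 1 → 0 ≤ y → y ≤ 1 →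
    |f1 ε x y| ≤ C ∧ |f2 ε x y| ≤ C := by
  have hc : ContinuousOn (fun p : ℝ × ℝ => |GG p.1 p.2| + |(1 / 2 - p.1) ^ 4 / 24|)
      (Set.Icc (0 : ℝ) 1 ×ˢ Set.Icc (0 : ℝ) 1) := by
    unfold GG
    fun_prop
  obtain ⟨C, hC⟩ := (isCompact_Icc.prod isCompact_Icc).exists_bound_of_continuousOn hc
  have het : ∀ ε z : ℝ, |et ε z| ≤ 1 := by
    intro ε z
    unfold et
    rw [abs_of_nonneg (sc_nonneg _ _ _)]
    exact sc_le_one _ _ _
  refine ⟨|C| + 1, by positivity, ?_⟩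
  intro ε x y hx hx1 hy hy1
  have h1 := hC (x, y) ⟨⟨hx, hx1⟩, ⟨hy, hy1⟩⟩
  simp only [Real.norm_eq_abs] at h1
  rw [abs_of_nonneg (by positivity)] at h1
  have h2 : C ≤ |C| := le_abs_self C
  have hm : ∀ z : ℝ, |z * et ε x * et ε y| ≤ |z| := by
    intro z
    rw [abs_mul, abs_mul]
    calc |z| * |et ε x| * |et ε y| ≤ |z| * 1 * 1 := by
          apply mul_le_mul (mul_le_mul_of_nonneg_left (het _ _) (abs_nonneg _)) (het _ _)
            (abs_nonneg _) (by positivity)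
      _ = |z| := by ring
  constructor
  · unfold f1
    refine (hm _).trans ?_
    have := abs_nonneg ((1 / 2 - x) ^ 4 / 24)
    linarith
  · unfold f2
    refine (hm _).trans ?_
    have := abs_nonneg (GG x y)
    linarith

lemma mem_SS {ε T : ℝ} (hT : 1 < T) {b : ℕ × ℕ} (hb : b ∈ SS' ε T) :
    1 ≤ b.1 ∧ 1 ≤ b.2 ∧ Nat.Coprime b.1 b.2 ∧ (b.1 : ℝ) ≤ T ^ (1 / 2 - ε) ∧
      (b.2 : ℝ) ≤ T ^ (1 / 2 - ε) := by
  unfold SS' at hb
  rw [mem_filter, mem_product, mem_Icc, mem_Icc] at hb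
  have hT0 : 0 ≤ T ^ (1 / 2 - ε) := by positivity
  exact ⟨hb.1.1.1, hb.1.2.1, hb.2, (Nat.le_floor_iff hT0).mp hb.1.1.2,
    (Nat.le_floor_iff hT0).mp hb.1.2.2⟩

lemma pow_half {ε T : ℝ} (hT : 1 < T) : T ^ (1 / 2 - ε) * T ^ (1 / 2 - ε) = T ^ (1 - 2 * ε) := by
  rw [← Real.rpow_add (by linarith)]
  congr 1
  ring

lemma pow_le_self {ε T : ℝ} (hε : 0 < ε) (hT : 1 < T) : T ^ (1 - 2 * ε) ≤ T := by
  calc T ^ (1 - 2 * ε) ≤ T ^ (1 : ℝ) := Real.rpow_le_rpow_of_exponent_le hT.le (by linarith)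
    _ = T := Real.rpow_one T

lemma card_SS {ε T : ℝ} (hε : 0 < ε) (hT : 1 < T) : ((SS' ε T).card : ℝ) ≤ T := by
  unfold SS'
  have h1 := card_filter_le ((Icc 1 ⌊T ^ (1 / 2 - ε)⌋₊) ×ˢ (Icc 1 ⌊T ^ (1 / 2 - ε)⌋₊))
    (fun b : ℕ × ℕ => Nat.Coprime b.1 b.2)
  rw [card_product, Nat.card_Icc, Nat.add_sub_cancel] at h1
  have hT0 : 0 ≤ T ^ (1 / 2 - ε) := by positivity
  have hfl : (⌊T ^ (1 / 2 - ε)⌋₊ : ℝ) ≤ T ^ (1 / 2 - ε) := Nat.floor_le hT0
  calc _ ≤ ((⌊T ^ (1 / 2 - ε)⌋₊ * ⌊T ^ (1 / 2 - ε)⌋₊ : ℕ) : ℝ) := by exact_mod_cast h1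
    _ = (⌊T ^ (1 / 2 - ε)⌋₊ : ℝ) * (⌊T ^ (1 / 2 - ε)⌋₊ : ℝ) := by push_cast; ring
    _ ≤ T ^ (1 / 2 - ε) * T ^ (1 / 2 - ε) := mul_le_mul hfl hfl (by positivity) hT0
    _ = T ^ (1 - 2 * ε) := pow_half hT
    _ ≤ T := pow_le_self hε hT

lemma log_ratio {ε T : ℝ} (hε : 0 < ε) (hT : 1 < T) (n : ℕ) (hn : 1 ≤ n)
    (h : (n : ℝ) ≤ T ^ (1 / 2 - ε)) : 0 ≤ Real.log n / Real.log T ∧ Real.log n / Real.log T ≤ 1 := by
  have hL : 0 < Real.log T := Real.log_pos hT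
  have hn' : (1 : ℝ) ≤ n := by exact_mod_cast hn
  constructor
  · exact div_nonneg (Real.log_nonneg hn') hL.le
  · rw [div_le_one hL]
    apply Real.log_le_log (by linarith)
    refine h.trans ?_
    calc T ^ (1 / 2 - ε) ≤ T ^ (1 : ℝ) := Real.rpow_le_rpow_of_exponent_le hT.le (by linarith)
      _ = T := Real.rpow_one T

lemma coef_bound : ∃ C : ℝ, 0 < C ∧ ∀ ε T : ℝ, 0 < ε → 1 < T → ∀ b ∈ SS' ε T,
    |c1 ε T b| ≤ C * (1 + Real.log T) ^ 4 * T ∧ |c2 ε T b| ≤ C * (1 + Real.log T) ^ 4 * T := by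
  obtain ⟨C, hC, hf⟩ := f_bound
  refine ⟨C * (1 + |kp|), by positivity, ?_⟩
  intro ε T hε hT b hb
  obtain ⟨h1, h2, -, h3, h4⟩ := mem_SS hT hb
  have hL : 0 < Real.log T := Real.log_pos hT
  have b1 : (1 : ℝ) ≤ b.1 := by exact_mod_cast h1
  have b2 : (1 : ℝ) ≤ b.2 := by exact_mod_cast h2
  obtain ⟨x0, x1⟩ := log_ratio hε hT b.1 h1 h3
  obtain ⟨y0, y1⟩ := log_ratio hε hT b.2 h2 h4
  obtain ⟨g1, g2⟩ := hf ε _ _ x0 x1 y0 y1
  have hT0 : 0 < T := by linarith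
  have hpp := pow_half (ε := ε) hT
  have hps := pow_le_self hε hT
  have hhalf : 0 < T ^ (1 / 2 - ε) := by positivity
  have hsq : (1 : ℝ) ≤ Real.sqrt ((b.1 : ℝ) * b.2) := by
    rw [Real.one_le_sqrt]
    nlinarith
  have hdiv : ∀ z : ℝ, |z / Real.sqrt ((b.1 : ℝ) * b.2)| ≤ |z| := by
    intro z
    rw [abs_div, abs_of_nonneg (Real.sqrt_nonneg _)]
    exact div_le_self (abs_nonneg _) hsq
  have hL1 : Real.log T ^ 3 ≤ (1 + Real.log T) ^ 4 := by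
    calc Real.log T ^ 3 ≤ (1 + Real.log T) ^ 3 := pow_le_pow_left₀ hL.le (by linarith) 3
      _ ≤ (1 + Real.log T) ^ 4 := pow_le_pow_right₀ (by linarith) (by norm_num)
  have hL2 : Real.log T ^ 4 ≤ (1 + Real.log T) ^ 4 := pow_le_pow_left₀ hL.le (by linarith) 4
  have hkp := abs_nonneg kp
  constructor
  · unfold c1
    refine (hdiv _).trans ?_
    rw [abs_mul, abs_mul, abs_of_nonneg (by positivity : (0:ℝ) ≤ Real.log T ^ 3),
      abs_of_nonneg (ps_nonneg _)]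
    have e1 : ps b.1 ≤ T := by
      refine (ps_le b.1 h1).trans ?_
      calc (b.1 : ℝ) ^ 2 = b.1 * b.1 := sq _
        _ ≤ T ^ (1 / 2 - ε) * T ^ (1 / 2 - ε) := mul_le_mul h3 h3 (by positivity) hhalf.le
        _ ≤ T := by rw [hpp]; exact hps
    calc Real.log T ^ 3 * ps b.1 * |f1 ε (Real.log b.1 / Real.log T) (Real.log b.2 / Real.log T)|
        ≤ (1 + Real.log T) ^ 4 * T * C := by
          apply mul_le_mul (mul_le_mul hL1 e1 (ps_nonneg _) (by positivity)) g1 (abs_nonneg _)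
            (by positivity)
      _ = C * 1 * (1 + Real.log T) ^ 4 * T := by ring
      _ ≤ C * (1 + |kp|) * (1 + Real.log T) ^ 4 * T := by
          have : C * 1 ≤ C * (1 + |kp|) := mul_le_mul_of_nonneg_left (by linarith) hC.le
          apply mul_le_mul_of_nonneg_right (mul_le_mul_of_nonneg_right this (by positivity)) hT0.le
  · unfold c2
    refine (hdiv _).trans ?_
    rw [abs_mul, abs_mul, abs_mul, abs_mul, abs_of_nonneg (by positivity : (0:ℝ) ≤ Real.log T ^ 4),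
      abs_of_nonneg (De_nonneg b.1), abs_of_nonneg (De_nonneg b.2)]
    have e1 : De b.1 * De b.2 ≤ T := by
      calc De b.1 * De b.2 ≤ T ^ (1 / 2 - ε) * T ^ (1 / 2 - ε) :=
            mul_le_mul ((De_le _ h1).trans h3) ((De_le _ h2).trans h4) (De_nonneg _) hhalf.le
        _ ≤ T := by rw [hpp]; exact hps
    calc Real.log T ^ 4 * |kp| * De b.1 * De b.2 *
          |f2 ε (Real.log b.1 / Real.log T) (Real.log b.2 / Real.log T)|
        = (Real.log T ^ 4 * |kp|) * (De b.1 * De b.2) *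
          |f2 ε (Real.log b.1 / Real.log T) (Real.log b.2 / Real.log T)| := by ring
      _ ≤ ((1 + Real.log T) ^ 4 * (1 + |kp|)) * T * C := by
          apply mul_le_mul (mul_le_mul (mul_le_mul hL2 (by linarith) hkp (by positivity)) e1
            (mul_nonneg (De_nonneg _) (De_nonneg _)) (by positivity)) g2 (abs_nonneg _)
            (by positivity)
      _ = _ := by ring

lemma sum_coef (ε : ℝ) (hε : 0 < ε) : ∀ᶠ T : ℝ in atTop,
    ∑ b ∈ SS' ε T, |c1 ε T b| ≤ T ^ (9 / 4 : ℝ) ∧ ∑ b ∈ SS' ε T, |c2 ε T b| ≤ T ^ (9 / 4 : ℝ) := by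
  obtain ⟨C, hC, hb⟩ := coef_bound
  filter_upwards [polylog_small C (1 / 4) (by norm_num) 4, eventually_gt_atTop 1] with T h1 hT
  have hT0 : 0 < T := by linarith
  have hL : 0 < Real.log T := Real.log_pos hT
  have key : ∀ c : ℕ × ℕ → ℝ, (∀ b ∈ SS' ε T, |c b| ≤ C * (1 + Real.log T) ^ 4 * T) →
      ∑ b ∈ SS' ε T, |c b| ≤ T ^ (9 / 4 : ℝ) := by
    intro c hc
    calc ∑ b ∈ SS' ε T, |c b| ≤ ∑ _b ∈ SS' ε T, C * (1 + Real.log T) ^ 4 * T := sum_le_sum hc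
      _ = (SS' ε T).card * (C * (1 + Real.log T) ^ 4 * T) := by
          rw [sum_const, nsmul_eq_mul]
      _ ≤ T * (T ^ (1 / 4 : ℝ) * T) := by
          apply mul_le_mul (card_SS hε hT) _ (by positivity) hT0.le
          exact mul_le_mul_of_nonneg_right h1 hT0.le
      _ = T ^ (1 : ℝ) * (T ^ (1 / 4 : ℝ) * T ^ (1 : ℝ)) := by rw [Real.rpow_one]
      _ = T ^ (9 / 4 : ℝ) := by
          rw [← Real.rpow_add hT0, ← Real.rpow_add hT0]; norm_num
  exact ⟨key _ fun b h => (hb ε T hε hT b h).1, key _ fun b h => (hb ε T hε hT b h).2⟩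

lemma norm_id (X A B : ℂ) (hX : ‖X‖ = 1) :
    ‖X * A + X ^ 2 * B‖ ^ 2 = ‖A‖ ^ 2 + ‖B‖ ^ 2 + 2 * (X * B * (starRingEnd ℂ) A).re := by
  have h1 : X * A + X ^ 2 * B = X * (X * B + A) := by ring
  rw [h1, norm_mul, hX, one_mul, ← Complex.normSq_eq_norm_sq, Complex.normSq_add,
    Complex.normSq_eq_norm_sq, Complex.normSq_eq_norm_sq, norm_mul, hX, one_mul]
  ring

lemma Cp_PG (S : Finset (ℕ × ℕ)) (c : ℕ × ℕ → ℝ) : PG (Cp S c) :=
  PG.sum S fun _ _ => (PG.const _).mul (PG.ef _)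

/-- the frequency -/
def fr (b : ℕ × ℕ) : ℝ := Real.log ((b.1 : ℝ) / b.2)

lemma Cp_conj (S : Finset (ℕ × ℕ)) (c : ℕ × ℕ → ℝ) (t : ℝ) :
    (starRingEnd ℂ) (Cp S c t) = DP S c fr t := by
  unfold Cp DP fr
  rw [map_sum]
  refine sum_congr rfl fun i _ => ?_
  rw [map_mul, Complex.conj_ofReal, ef_conj]

lemma Cp_norm (ε : ℝ) (hε : 0 < ε) (c : ℝ → ℕ × ℕ → ℝ)
    (hc : ∀ᶠ T : ℝ in atTop, ∑ b ∈ SS' ε T, |c T b| ≤ T ^ (9 / 4 : ℝ)) :
    ∀ᶠ T : ℝ in atTop, ∀ k : ℕ, kr' T k →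
      ∫ t in Set.Ioi (0 : ℝ), om k (k / T) t * ‖Cp (SS' ε T) (c T) t‖ ^ 2 ≤
        (∑ b ∈ SS' ε T, c T b ^ 2) + T ^ (-(1 / 2) : ℝ) := by
  filter_upwards [hc, small_pow (2 * ε) (by positivity), eventually_gt_atTop (Real.exp 1)]
    with T h1 h2 hTe k hk
  have hT : 1 < T := lt_trans (by have := Real.add_one_lt_exp (one_ne_zero); linarith) hTe
  have hT0 : 0 < T := by linarith
  obtain ⟨hk1, hδ⟩ := kr_pos hTe hk
  have hM : 0 < T ^ (1 - 2 * ε) := by positivity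
  have hsep : ∀ i ∈ SS' ε T, ∀ j ∈ SS' ε T, i ≠ j →
      1 / (2 * T ^ (1 - 2 * ε)) ≤ |-(fr i) - -(fr j)| := by
    intro i hi j hj hij
    obtain ⟨i1, i2, i3, i4, i5⟩ := mem_SS hT hi
    obtain ⟨j1, j2, j3, j4, j5⟩ := mem_SS hT hj
    have hb : ∀ x y : ℝ, 0 ≤ y → x ≤ T ^ (1 / 2 - ε) → y ≤ T ^ (1 / 2 - ε) →
        x * y ≤ T ^ (1 - 2 * ε) := by
      intro x y hy hx' hy'
      rw [← pow_half hT]
      exact mul_le_mul hx' hy' hy (by positivity)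
    have := rat_sep (T ^ (1 - 2 * ε)) i.1 i.2 j.1 j.2 i1 i2 j1 j2 i3 j3 (by
      intro h
      apply hij
      exact Prod.ext (congrArg Prod.fst h) (congrArg Prod.snd h))
      (hb _ _ (by positivity) i4 i5) (hb _ _ (by positivity) j4 j5)
    have e : |-(fr i) - -(fr j)| = |Real.log ((i.1 : ℝ) / i.2) - Real.log ((j.1 : ℝ) / j.2)| := by
      unfold fr
      rw [← abs_neg]
      congr 1
      ring
    rw [e]
    exact this
  have h3 := norm_diag (SS' ε T) (fun b => ((c T b : ℝ) : ℂ)) (fun b => -(fr b))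
    (1 / (2 * T ^ (1 - 2 * ε))) (by positivity) hsep k (k / T) hδ
  have e1 : ∀ t : ℝ, ∑ b ∈ SS' ε T, ((c T b : ℝ) : ℂ) * ef (-(-(fr b))) t = Cp (SS' ε T) (c T) t := by
    intro t
    unfold Cp fr
    simp only [neg_neg]
  simp only [e1] at h3
  have e2 : ∑ b ∈ SS' ε T, ‖((c T b : ℝ) : ℂ)‖ ^ 2 = ∑ b ∈ SS' ε T, c T b ^ 2 := by
    refine sum_congr rfl fun b _ => ?_
    rw [Complex.norm_real, Real.norm_eq_abs, sq_abs]
  have e3 : ∑ b ∈ SS' ε T, ‖((c T b : ℝ) : ℂ)‖ = ∑ b ∈ SS' ε T, |c T b| := by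
    refine sum_congr rfl fun b _ => ?_
    rw [Complex.norm_real, Real.norm_eq_abs]
  rw [e2, e3] at h3
  have h4 : (∑ b ∈ SS' ε T, |c T b|) ^ 2 *
      ((k / T) / (1 / (2 * T ^ (1 - 2 * ε)))) ^ (k + 1) ≤ T ^ (-(1 / 2) : ℝ) := by
    calc _ ≤ (T ^ (9 / 4 : ℝ)) ^ 2 * T ^ (-5 : ℝ) := by
          apply mul_le_mul _ (h2 k hk) (by positivity) (by positivity)
          exact pow_le_pow_left₀ (sum_nonneg fun _ _ => abs_nonneg _) h1 2
      _ = T ^ (-(1 / 2) : ℝ) := by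
          rw [← Real.rpow_natCast, ← Real.rpow_mul hT0.le, ← Real.rpow_add hT0]
          norm_num
  have h5 := (abs_le.mp h3).2
  linarith

/-- MB3 -/
theorem B_norm (ε : ℝ) (hε : 0 < ε) (hε1 : ε < 1 / 8) : ∀ᶠ T : ℝ in atTop, ∀ k : ℕ, kr' T k →
    ∫ t in Set.Ioi (0 : ℝ), om k (k / T) t * ‖Bc ε T t‖ ^ 2 ≤
      (∑ b ∈ SS' ε T, c1 ε T b ^ 2) + (∑ b ∈ SS' ε T, c2 ε T b ^ 2) + 1 := by
  have hs1 : ∀ᶠ T : ℝ in atTop, ∑ b ∈ SS' ε T, |c1 ε T b| ≤ T ^ (9 / 4 : ℝ) :=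
    (sum_coef ε hε).mono fun T h => h.1
  have hs2 : ∀ᶠ T : ℝ in atTop, ∑ b ∈ SS' ε T, |c2 ε T b| ≤ T ^ (9 / 4 : ℝ) :=
    (sum_coef ε hε).mono fun T h => h.2
  filter_upwards [hs1, hs2, Cp_norm ε hε (fun T => c1 ε T) hs1, Cp_norm ε hε (fun T => c2 ε T) hs2,
    osc (2 * ε) (by positivity) (by linarith) 1 le_rfl (by norm_num),
    eventually_gt_atTop (Real.exp 1), eventually_ge_atTop 16] with T h1 h2 h3 h4 h5 hTe hT16 k hk
  have hT : 1 < T := by linarith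
  have hT0 : 0 < T := by linarith
  obtain ⟨hk1, hδ⟩ := kr_pos hTe hk
  set C1 := Cp (SS' ε T) (c1 ε T) with hC1
  set C2 := Cp (SS' ε T) (c2 ε T) with hC2
  have p1 : PG C1 := Cp_PG _ _
  have p2 : PG C2 := Cp_PG _ _
  have hcross : ‖∫ t in Set.Ioi (0:ℝ), (om k (k / T) t : ℂ) *
      (Xf (cl t) * C2 t * (starRingEnd ℂ) (C1 t))‖ ≤ T ^ (-(1 / 2) : ℝ) := by
    have hb := bilin k hδ PG.X (SS' ε T) (c1 ε T) fr (SS' ε T) (c2 ε T) fr (T ^ (-5 : ℝ)) (by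
      intro i hi j hj
      obtain ⟨i1, i2, i3, i4, i5⟩ := mem_SS hT hi
      obtain ⟨j1, j2, j3, j4, j5⟩ := mem_SS hT hj
      have i1' : (0 : ℝ) < i.1 := by exact_mod_cast i1
      have i2' : (0 : ℝ) < i.2 := by exact_mod_cast i2
      have j1' : (0 : ℝ) < j.1 := by exact_mod_cast j1
      have j2' : (0 : ℝ) < j.2 := by exact_mod_cast j2
      have i1'' : (1 : ℝ) ≤ i.1 := by exact_mod_cast i1
      have i2'' : (1 : ℝ) ≤ i.2 := by exact_mod_cast i2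
      have j1'' : (1 : ℝ) ≤ j.1 := by exact_mod_cast j1
      have hr : ((i.1 : ℝ) * j.2) / (i.2 * j.1) ≤ T ^ (((1 : ℕ) : ℝ) - 2 * ε) := by
        calc ((i.1 : ℝ) * j.2) / (i.2 * j.1) ≤ (i.1 : ℝ) * j.2 :=
              div_le_self (by positivity) (by nlinarith)
          _ ≤ T ^ (1 / 2 - ε) * T ^ (1 / 2 - ε) := mul_le_mul i4 j5 j2'.le (by positivity)
          _ = T ^ (1 - 2 * ε) := pow_half hT
          _ = _ := by norm_num
      have := h5 k hk.1 hk.2 (((i.1 : ℝ) * j.2) / (i.2 * j.1)) (by positivity) hr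
      have e : -(fr i) + fr j = -(Real.log (((i.1 : ℝ) * j.2) / (i.2 * j.1))) := by
        unfold fr
        rw [Real.log_div (by positivity) (by positivity), Real.log_div (by positivity)
          (by positivity), Real.log_div (by positivity) (by positivity),
          Real.log_mul (by positivity) (by positivity), Real.log_mul (by positivity) (by positivity)]
        ring
      rw [e]
      simpa only [pow_one] using this)
    have e1 : ∀ t : ℝ, Xf (cl t) * DP (SS' ε T) (c1 ε T) fr t *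
        ∑ j ∈ SS' ε T, (c2 ε T j : ℂ) * ef (fr j) t =
        Xf (cl t) * C2 t * (starRingEnd ℂ) (C1 t) := by
      intro t
      rw [hC1, Cp_conj, hC2]
      unfold Cp fr
      ring
    simp only [e1] at hb
    refine hb.trans ?_
    calc T ^ (-5 : ℝ) * (∑ i ∈ SS' ε T, |c1 ε T i|) * ∑ j ∈ SS' ε T, |c2 ε T j|
        ≤ T ^ (-5 : ℝ) * T ^ (9 / 4 : ℝ) * T ^ (9 / 4 : ℝ) := by
          apply mul_le_mul (mul_le_mul_of_nonneg_left h1 (by positivity)) h2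
            (sum_nonneg fun _ _ => abs_nonneg _) (by positivity)
      _ = T ^ (-(1 / 2) : ℝ) := by
          rw [← Real.rpow_add hT0, ← Real.rpow_add hT0]; norm_num
  have pc : PG (fun t => Xf (cl t) * C2 t * (starRingEnd ℂ) (C1 t)) :=
    (PG.X.mul p2).mul p1.conj
  have hre := int_re_le pc k hδ _ hcross
  have i1 := PGnsq p1 k hδ
  have i2 := PGnsq p2 k hδ
  have i3 := PGre pc k hδ
  have hmain : ∫ t in Set.Ioi (0 : ℝ), om k (k / T) t * ‖Bc ε T t‖ ^ 2 =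
      (∫ t in Set.Ioi (0 : ℝ), om k (k / T) t * ‖C1 t‖ ^ 2) +
      (∫ t in Set.Ioi (0 : ℝ), om k (k / T) t * ‖C2 t‖ ^ 2) +
      2 * ∫ t in Set.Ioi (0 : ℝ), om k (k / T) t *
        (Xf (cl t) * C2 t * (starRingEnd ℂ) (C1 t)).re := by
    have i12 : IntegrableOn (fun t => om k (k / T) t * ‖C1 t‖ ^ 2 + om k (k / T) t * ‖C2 t‖ ^ 2)
        (Set.Ioi 0) := i1.add i2
    have i32 : IntegrableOn (fun t => 2 * (om k (k / T) t *
        (Xf (cl t) * C2 t * (starRingEnd ℂ) (C1 t)).re)) (Set.Ioi 0) := i3.const_mul 2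
    rw [← integral_add i1 i2, ← integral_const_mul, ← integral_add i12 i32]
    refine integral_congr_ae (Eventually.of_forall fun t => ?_)
    simp only
    unfold Bc
    rw [norm_id _ _ _ (Xf_line t)]
    ring
  rw [hmain]
  have h6 := h3 k hk
  have h7 := h4 k hk
  have h8 : T ^ (-(1 / 2) : ℝ) ≤ 1 / 4 := by
    rw [Real.rpow_neg hT0.le, ← Real.sqrt_eq_rpow]
    have : (4 : ℝ) ≤ Real.sqrt T := by
      apply Real.le_sqrt_of_sq_le
      linarith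
    rw [show (1 / 4 : ℝ) = 4⁻¹ by norm_num]
    exact inv_anti₀ (by norm_num) this
  linarith

end

end Pool.Agent.H184R2.EM_MB3
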