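import Mathlib
import Pool.Agent.H776R2.Om.Defs

set_option autoImplicit false

namespace Pool.Agent.H776R2.Om

open Pool.Agent.Results.MP_03d093_al.SphereBall Pool.Agent.H776R2.Grig

/-! Task A: Basic.lean -/

theorem col_eq (i : Fin 3) (x : V) : col i x = decide (x ≠ kil i) := sorry
theorem gno_sq (ω : Om) (s : Lt) : gno ω s * gno ω s = 1 := sorry
theorem gno_inv (ω : Om) (s : Lt) : (gno ω s)⁻¹ = gno ω s := sorry
theorem gno_lt (ω : Om) (x : V) : gno ω x.lt = xx ω x := sorry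
theorem evo_nil (ω : Om) : evo ω [] = 1 := sorry
theorem evo_cons (ω : Om) (s : Lt) (w : List Lt) : evo ω (s :: w) = gno ω s * evo ω w := sorry
theorem evo_append (ω : Om) (v w : List Lt) : evo ω (v ++ w) = evo ω v * evo ω w := sorry
theorem evo_reverse (ω : Om) (w : List Lt) : evo ω w.reverse = (evo ω w)⁻¹ := sorry
theorem sec_xx (ω : Om) (x : V) :
    Sec (xx ω x) (if x = kil (ω 0) then 1 else a) (xx (sh ω) x) := sorry
theorem xx_sq (ω : Om) (x : V) : xx ω x * xx ω x = 1 := sorry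
theorem xx_mul (ω : Om) (x y z : V) (h1 : x ≠ y) (h2 : y ≠ z) (h3 : x ≠ z) :
    xx ω x * xx ω y = xx ω z := sorry
theorem a_mem (ω : Om) : a ∈ Gom ω := sorry
theorem xx_mem (ω : Om) (x : V) : xx ω x ∈ Gom ω := sorry
theorem evo_mem (ω : Om) (w : List Lt) : evo ω w ∈ Gom ω := sorry
theorem exists_wordo {ω : Om} {g : P} (hg : g ∈ Gom ω) : ∃ w, evo ω w = g := sorry
/-- the element of `G_ω` given by a word -/
def evG (ω : Om) (w : List Lt) : Gom ω := ⟨evo ω w, evo_mem ω w⟩
theorem exists_geodo (ω : Om) (g : Gom ω) : ∃ w : List Lt, w.length = lenO ω g ∧ evG ω w = g := sorry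
theorem lenO_le (ω : Om) (w : List Lt) : lenO ω (evG ω w) ≤ w.length := sorry
theorem ballO_finite (ω : Om) (n : ℕ) : {g : Gom ω | lenO ω g ≤ n}.Finite := sorry
theorem ballO_mono (ω : Om) {m n : ℕ} (h : m ≤ n) : ballO ω m ≤ ballO ω n := sorry
theorem ballO_zero (ω : Om) : ballO ω 0 = 1 := sorry
theorem evo_nil_apply (ω : Om) (w : List Lt) : evo ω w [] = [] := sorry
theorem ta_evo (ω : Om) (w : List Lt) : TA (evo ω w) := sorry
theorem lab_commo (ω : Om) {j n : ℕ} (hj : j < n) {q μ : List Bool → Bool} {we ws : List Lt}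
    (he : Lab j q (evo ω we)) (hs : Lab n (fun u => μ (u.take j) && u.getD j false) (evo ω ws)) :
    Lab n (fun u => μ (u.take j) && q (u.take j)) (evo ω (we ++ ws ++ we.reverse ++ ws.reverse)) :=
  sorry
theorem evo_congr (N : ℕ) (η η' : Om) (h : ∀ i < N, η i = η' i) (w : List Lt) (u : List Bool)
    (hu : u.length ≤ N) : evo η w u = evo η' w u := sorry
theorem sh_shi (i : ℕ) (ω : Om) : sh (shi i ω) = shi (i + 1) ω := sorry
theorem shi_zero (ω : Om) : shi 0 ω = ω := sorry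

/-! Task C: Norm.lean -/

theorem normal_formo (η : Om) (α : V → ℝ) (hα : Tri α) (w : List Lt) :
    ∃ (e e' : Bool) (v : List V),
    evo η w = pa e * evo η (U v) * pa e' ∧ v.length ≤ w.length ∧ Kwo α (U v) ≤ Kwo α w ∧
    (∀ y z : V, y ≠ z → (Even (v.count y + v.count z) ↔ Even (w.count y.lt + w.count z.lt))) ∧
    (Even (v.length + e.toNat + e'.toNat) ↔ Even (w.count Lt.A)) := sorry

/-! Task D: Contr.lean -/

theorem tri_stp {α : V → ℝ} (h : Tri α) (k : V) : Tri (stp k α) := sorry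
theorem contro (η : Om) (α : V → ℝ) (hα : Tri α) (v : List V) : ∃ w0 w1 : List Lt,
    (Even v.length → Sec (evo η (U v)) (evo (sh η) w0) (evo (sh η) w1)) ∧
    (¬ Even v.length → Sec (evo η (U v) * a) (evo (sh η) w0) (evo (sh η) w1)) ∧
    Kwo (stp (kil (η 0)) α) w0 + Kwo (stp (kil (η 0)) α) w1 ≤
      Kwo α (U v) + 2 * (stp (kil (η 0)) α (kil (η 0)) - α (kil (η 0))) := sorry


end Pool.Agent.H776R2.Om
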